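import Mathlib

set_option autoImplicit false

namespace Pool.Agent.Results.MP_842c30_nt.Counter360

/-- `C r n`: the decimal expansion of `n` written `r` times in a row. -/
def C (r n : ℕ) : ℕ := n * ∑ i ∈ Finset.range r, 10 ^ ((Nat.digits 10 n).length * i)

/-- `N r n`: the number `C r n` with the digit `1` appended. -/
def N (r n : ℕ) : ℕ := 10 * C r n + 1

lemma len360 : (Nat.digits 10 360).length = 3 := by norm_num

lemma key (r : ℕ) : 999 * N r 360 + 2601 = 3600 * 1000 ^ r := by
  unfold N C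
  rw [len360]
  induction r with
  | zero => simp
  | succ r ih =>
    rw [Finset.sum_range_succ, pow_succ, pow_mul]
    norm_num at ih ⊢
    omega

lemma pow_mod (t : ℕ) : ∃ k, 1000 ^ t = 999 * k + 1 := by
  induction t with
  | zero => exact ⟨0, by simp⟩
  | succ t ih =>
    obtain ⟨k, hk⟩ := ih
    exact ⟨1000 * k + 1, by rw [pow_succ, hk]; ring⟩

lemma pow_mod13 (t : ℕ) : ∃ k, 1000 ^ (2 * t + 1) = 13 * k + 12 := by
  induction t with
  | zero => exact ⟨76, by norm_num⟩
  | succ t ih =>
    obtain ⟨k, hk⟩ := ih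
    refine ⟨1000000 * k + 923076, ?_⟩
    rw [show 2 * (t + 1) + 1 = (2 * t + 1) + 2 by ring, pow_add, hk]; ring

/-- The number `360` is not a power of ten, and `N r 360` is composite for every `r ≥ 1`. -/
theorem result :
    ∃ n : ℕ, 0 < n ∧ (∀ m : ℕ, n ≠ 10 ^ m) ∧
      ∀ r : ℕ, 1 ≤ r → 1 < N r n ∧ ¬ (N r n).Prime := by
  refine ⟨360, by norm_num, ?_, ?_⟩
  · intro m hm
    have h3 : (3 : ℕ) ∣ 10 ^ m := by rw [← hm]; norm_num
    have := Nat.Prime.dvd_of_dvd_pow Nat.prime_three h3
    norm_num at this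
  · intro r hr
    have hk := key r
    have hbig : 1000 ≤ 1000 ^ r := by
      calc 1000 = 1000 ^ 1 := by norm_num
        _ ≤ 1000 ^ r := Nat.pow_le_pow_right (by norm_num) hr
    refine ⟨by omega, ?_⟩
    rcases Nat.even_or_odd' r with ⟨t, rfl | rfl⟩
    · obtain ⟨k, hk'⟩ := pow_mod t
      have ht : 1 ≤ t := by omega
      have hY : 1000 ≤ 1000 ^ t := by
        calc 1000 = 1000 ^ 1 := by norm_num
          _ ≤ 1000 ^ t := Nat.pow_le_pow_right (by norm_num) ht
      have hk1 : 1 ≤ k := by omega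
      have hN : N (2 * t) 360 = (6660 * k + 1) * (540 * k + 1) := by
        have h2 : 1000 ^ (2 * t) = (999 * k + 1) ^ 2 := by rw [mul_comm 2 t, pow_mul, hk']
        rw [h2] at hk
        nlinarith
      rw [hN]
      exact Nat.not_prime_mul (by omega) (by omega)
    · obtain ⟨k, hk'⟩ := pow_mod13 t
      rw [hk'] at hk hbig
      generalize N (2 * t + 1) 360 = M at hk ⊢
      intro hp
      have h1 : 13 ∣ 999 * M := ⟨3600 * k + 3123, by omega⟩
      have hd : 13 ∣ M := Nat.Coprime.dvd_of_dvd_mul_left (by norm_num) h1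
      have h2 := (Nat.prime_dvd_prime_iff_eq (by norm_num) hp).mp hd
      subst h2
      omega

end Pool.Agent.Results.MP_842c30_nt.Counter360
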